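import Pool.Agent.X270.Cappitt

set_option autoImplicit false

open Pool.Agent.X270.Cappitt

namespace Pool.Agent.Results.MP_b1a016_al.CappittPeriodic

/-- Every non-abelian pro-`p` Cappitt group has finite exponent a power of `p`; in particular
it is periodic. -/
theorem result (p : ℕ) (hp : p.Prime) (G : Type*) [Group G] [TopologicalSpace G]
    [IsTopologicalGroup G] [CompactSpace G] [T2Space G] [TotallyDisconnectedSpace G]
    (hprop : IsProP p G) (hS : Stilde G ≠ ⊤) (hna : ∃ a b : G, ¬ Commute a b) :
    ∃ e : ℕ, ∀ g : G, g ^ (p ^ e) = 1 :=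
  finite_exponent hp hprop hS hna

end Pool.Agent.Results.MP_b1a016_al.CappittPeriodic
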